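import Pool.Agent.Helper40.CC.Count
import Pool.Agent.Helper40.CC.Lower

/-!
# The order of magnitude of the cover numbers of the cube

For every `d ≥ 1` every cover of `I_d` by arbitrary simplices has at least `(2 sqrt(d) / 3)^d`
members, and some cover of `I_d` by vertex simplices has at most `(10^5 sqrt(d))^d` members.

Outline of the upper bound. After a reflection all coordinates of `x` are at most `1/2`. The
coordinates of size about `16^(-k)` are cut into at most `4^k` blocks of at most `d/4^k + 1`
coordinates. A block `b` gets the weight `16^(-(k+1))` and at most `4|b|` vertices, taken from a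
Sylvester matrix, whose hull contains the ball of radius `1/2` about the centre of `[0,1]^b`; so on
a block it is enough to know each coordinate up to `16^(-k) / (32 sqrt(d/4^k+1) + 32)`. The rounded
point is in the hull of `d+1` vertices. So `6d+2` vertices, determined by the word of rounded
coordinates, have the whole cell in their hull, there are at most `193 sqrt(d)` letters, and
Carathéodory's theorem, applied inside each vertex set, gives the cover.
-/

namespace Pool.Agent.Helper40.Kept.CoverOrder

open Helper67.Cube

/-- The numbers `C(I_d)` and `C^v(I_d)` lie between `(2 sqrt(d) / 3)^d` and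
`(10^5 sqrt(d))^d`. -/
theorem result (d : ℕ) (hd : 1 ≤ d) :
    (∀ (N : ℕ) (W : Fin N → Fin (d+1) → Fin d → ℝ), IsCover W →
      (2 / 3 * Real.sqrt d) ^ d ≤ N) ∧
    (∃ (N : ℕ) (W : Fin N → Fin (d+1) → Fin d → ℝ), IsCover W ∧ IsVertexFamily W ∧
      (N : ℝ) ≤ (10 ^ 5 * Real.sqrt d) ^ d) :=
  ⟨fun N W hW => Helper40.CC.lower d hd N W hW, Helper40.CC.upper d hd⟩

end Pool.Agent.Helper40.Kept.CoverOrder
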